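import Pool.Agent.P.MP_b91a16_ag.SC.Pos

/-! Transfer of critical arcs between a block and its model. -/

set_option linter.unusedSectionVars false

open MvPolynomial

namespace Pool.Agent.P.MP_b91a16_ag.SC

noncomputable section

open St Dt JB

variable {k σ τ ρ β γ ι ζ : Type} [Field k] [Fintype σ] [DecidableEq σ] [Fintype τ] [DecidableEq τ]
  [Fintype ρ] [DecidableEq ρ] [Fintype β] [DecidableEq β] [Fintype γ] [DecidableEq γ]
  [Fintype ι] [DecidableEq ι] [Fintype ζ] [DecidableEq ζ]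

/-- Related arcs. -/
def BR (P : MvPolynomial β k) (g : MvPolynomial γ k) (M' M : ℕ) (x : β → PowerSeries k)
    (x' : γ → PowerSeries k) : Prop :=
  Cen x ∧ PowerSeries.X ^ M ∣ aeval x P - aeval x' g ∧ ∀ c : PowerSeries k,
    (∀ a, PowerSeries.X ^ M' ∣ c * aeval x' (pderiv a g)) →
      ∀ a, PowerSeries.X ^ M ∣ c * aeval x (pderiv a P)

/-- Transfer data between a block and its model. -/
def Tr (P : MvPolynomial β k) (g : MvPolynomial γ k) : Prop :=
  ∃ (W : Submodule k ((β → k) × (γ → k))) (q : MvPolynomial β k) (n : ℕ),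
    (∀ v, ∃ v', (v, v') ∈ W) ∧ (∀ v', ∃ v, (v, v') ∈ W) ∧ (∃ v, eval v q ≠ 0 ∧ (v, 0) ∈ W) ∧
    (∀ v v', (v, v') ∈ W → ∃ x x', fc x = v ∧ fc x' = v' ∧
      ∀ M ≤ 2, BR P g M M x x' ∧ BR g P M M x' x) ∧
    ∀ v, eval v q ≠ 0 → ∃ v', (v, v') ∈ W ∧ ∀ x', Cen x' → fc x' = v' → ∀ M,
      ∃ x, fc x = v ∧ BR P g (M + n) M x x'

variable {P : MvPolynomial β k} {g : MvPolynomial γ k}

theorem tr_small {ψ : β → MvPolynomial γ k} (h : Et ψ) (e : aeval ψ P = g) : Tr P g := by
  have h1 : ∀ x' : γ → PowerSeries k, Cen x' → ∀ M, BR P g M M (fun a => aeval x' (ψ a)) x' ∧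
      BR g P M M x' fun a => aeval x' (ψ a) := fun x' hx M => by
    have h2 : ∀ (c : PowerSeries k) j, c * aeval x' (pderiv j g) = ∑ a, c *
        aeval (fun a => aeval x' (ψ a)) (pderiv a P) * aeval x' (pderiv j (ψ a)) := fun c j => by
      simp only [← e, chain, map_sum, map_mul, aeval_aeval, Finset.mul_sum, mul_assoc]
    exact ⟨⟨h.cen hx, by rw [← e, aeval_aeval, sub_self]; exact dvd_zero _, fun c hc =>
      h.dvd_of_sum hx M fun j => h2 c j ▸ hc j⟩, hx,
      by rw [← e, aeval_aeval, sub_self]; exact dvd_zero _, fun c hc j =>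
      h2 c j ▸ Finset.dvd_sum fun a _ => (hc a).mul_right _⟩
  have h2 : ∀ v v', (v, v') ∈ LinearMap.ker (LinearMap.fst k _ _ - dl ψ ∘ₗ LinearMap.snd k _ _) ↔
      dl ψ v' = v := fun v v' => sub_eq_zero.trans eq_comm
  refine ⟨_, 1, 0, fun v => ((dl_bij h).2 v).imp fun v' => (h2 _ _).2, fun v' => ⟨_, (h2 _ _).2 rfl⟩,
    ⟨0, by simp, zero_mem _⟩, fun v v' hv => ⟨_, ln v', ?_, fc_ln _, fun M _ => h1 _ (cen_ln _) M⟩,
    fun v _ => ((dl_bij h).2 v).imp fun v' hv => ⟨(h2 _ _).2 hv, fun x' hx hx' M =>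
      ⟨_, ?_, (h1 x' hx M).1⟩⟩⟩
  · rw [← (h2 _ _).1 hv]
    exact funext fun a => (fc_aeval (cen_ln v') ψ a).trans (by rw [fc_ln])
  · rw [← hv, ← hx']
    exact funext (fc_aeval hx ψ)

theorem hom_pderiv {n : ℕ} (h : Hom P (n + 1)) (a : β) : Hom (pderiv a P) n := fun S _ _ s x => by
  have h1 := congrArg (pderiv (some a)) (h (MvPolynomial (Option β) k) (X none) fun j => X (some j))
  rw [Derivation.leibniz, chain, chain, Finset.sum_eq_single a (by simp +contextual [pderiv_X])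
    (by simp), Finset.sum_eq_single a (by simp +contextual [pderiv_X]) (by simp)] at h1
  simp only [Derivation.leibniz, pderiv_X, Pi.single_apply, smul_eq_mul, Derivation.leibniz_pow,
    if_true, reduceCtorEq, if_false, mul_zero, mul_one, add_zero, smul_zero] at h1
  rw [pow_succ, mul_right_comm] at h1
  have h2 := congrArg (aeval fun o : Option β => o.elim s x)
    (mul_right_cancel₀ (X_ne_zero _) h1)
  rw [map_mul, aeval_aeval, aeval_aeval] at h2
  simpa using h2

theorem Hom.dvd {n : ℕ} (h : Hom P n) {x : β → PowerSeries k} (hx : Cen x) :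
    ∃ u, aeval x P = PowerSeries.X ^ n * u ∧ PowerSeries.constantCoeff u = eval (fc x) P := by
  choose y hy using hx
  obtain rfl := funext hy
  refine ⟨_, h _ _ y, ?_⟩
  have h1 := aeval_congr_dvd (t := PowerSeries.X) (γ := fun j => PowerSeries.C (fc
    (fun j => PowerSeries.X * y j) j)) (γ' := y) (fun j => PowerSeries.X_dvd_iff.2 (by
      simp [fc, PowerSeries.coeff_succ_X_mul])) P
  have h2 := algHom_aeval (Algebra.ofId k (PowerSeries k)) (fc fun j => PowerSeries.X * y j)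
    _ (fun j => rfl) P
  rw [PowerSeries.X_dvd_iff, map_sub, sub_eq_zero] at h1
  exact h1.trans ((congrArg PowerSeries.constantCoeff h2.symm).trans (by simp [Algebra.ofId_apply]))

theorem tr_big [CharZero k] {n : ℕ} (h : Hom P (n + 3)) (h' : Hom g (n + 3)) (h0 : P ≠ 0)
    (hv : ∀ v, ∃ v', eval v' g = eval v P) : Tr P g := by
  have h1 : ∀ {β γ : Type} [Fintype β] [DecidableEq β] [Fintype γ] [DecidableEq γ]
      {P : MvPolynomial β k} {g : MvPolynomial γ k}, Hom P (n + 3) → Hom g (n + 3) → ∀ v v', ∀ M ≤ 2,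
      BR P g M M (ln v) (ln v') := fun h h' v v' M hM => by
    refine ⟨cen_ln v, ?_, fun c _ a => ?_⟩
    · obtain ⟨u, e, -⟩ := Hom.dvd h (cen_ln v)
      obtain ⟨u', e', -⟩ := Hom.dvd h' (cen_ln v')
      rw [e, e', ← mul_sub]
      exact (pow_dvd_pow _ (by omega)).mul_right _
    · obtain ⟨u, e, -⟩ := Hom.dvd (hom_pderiv h a) (cen_ln v)
      rw [e]
      exact ((pow_dvd_pow _ (by omega)).mul_right _).mul_left _
  refine ⟨⊤, P, n + 3, fun _ => ⟨0, trivial⟩, fun _ => ⟨0, trivial⟩, ?_, fun v v' _ =>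
    ⟨_, _, fc_ln v, fc_ln v', fun M hM => ⟨h1 h h' v v' M hM, h1 h' h v' v M hM⟩⟩,
    fun v h2 => (hv v).imp fun v' h3 => ⟨trivial, fun x' hx hx' M => ?_⟩⟩
  · by_contra! h2
    exact h0 (MvPolynomial.funext fun v => by_contra fun h3 => h2 v (by simpa using h3) trivial)
  obtain ⟨u, e, h4⟩ := Hom.dvd h' hx
  rw [hx', h3] at h4
  obtain ⟨s, h5, h6⟩ := jet_surj (K := k) (τ := Unit) (α := Unit)
    (φ := fun _ => C (eval v P) * ((1 + X ()) ^ (n + 3) - 1)) (by simp) (fun c =>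
      ⟨fun _ => c () / (eval v P * (n + 3)), fun _ => by
        have : (n + 3 : k) ≠ 0 := by norm_cast
        simp [St.lin, Derivation.leibniz_pow, map_ofNat]
        field_simp⟩) (c := fun _ => u - PowerSeries.C (eval v P))
    (fun _ => PowerSeries.X_dvd_iff.2 (by simp [h4])) M
  have h7 : aeval (fun j => PowerSeries.C (v j)) P = PowerSeries.C (eval v P) :=
    (algHom_aeval (Algebra.ofId k (PowerSeries k)) v _ (fun j => rfl) P).symm
  refine ⟨fun j => PowerSeries.X * (1 + s ()) * PowerSeries.C (v j), funext fun j => ?_,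
    fun j => Dvd.intro _ (mul_assoc _ _ _).symm, ?_, fun c hc a => Dvd.dvd.mul_right ?_ _⟩
  · simp [fc, PowerSeries.coeff_succ_X_mul, PowerSeries.X_dvd_iff.1 (h5 ())]
  · rw [h, h7, e, mul_pow, mul_assoc, ← mul_sub]
    refine ((pow_dvd_pow _ M.le_succ).trans (dvd_trans (h6 ()) (dvd_of_eq ?_))).mul_left _
    simp only [map_mul, map_sub, map_pow, map_add, map_one, aeval_X, aeval_C, alg_ps,
      Algebra.algebraMap_self, RingHom.id_apply]
    ring
  · have h8 : PowerSeries.X ^ (M + (n + 3)) ∣ c * PowerSeries.derivative k (aeval x' g) := by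
      rw [chain, Finset.mul_sum]
      exact Finset.dvd_sum fun a _ => mul_assoc c _ _ ▸ (hc a).mul_right _
    have h9 : PowerSeries.derivative k (aeval x' g) = PowerSeries.X ^ (n + 2) *
        (((n + 3 : ℕ) : PowerSeries k) * u + PowerSeries.X * PowerSeries.derivative k u) := by
      rw [e, Derivation.leibniz, Derivation.leibniz_pow, PowerSeries.derivative_X]
      simp only [smul_eq_mul, nsmul_eq_mul, show n + 3 - 1 = n + 2 from rfl]
      ring
    have h10 : IsUnit (((n + 3 : ℕ) : PowerSeries k) * u + PowerSeries.X * PowerSeries.derivative k u) :=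
      PowerSeries.isUnit_iff_constantCoeff.2 (IsUnit.mk0 _ (by
        simpa [h4, h2, map_ofNat] using (by norm_cast : (n + 3 : k) ≠ 0)))
    rw [h9, ← mul_assoc, h10.dvd_mul_right, show M + (n + 3) = M + 1 + (n + 2) by ring, pow_add,
      mul_dvd_mul_iff_right (pow_ne_zero _ PowerSeries.X_ne_zero)] at h8
    exact (pow_dvd_pow _ M.le_succ).trans h8

section Asm

variable {β γ : ι → Type} [∀ i, Fintype (β i)] [∀ i, DecidableEq (β i)] [∀ i, Fintype (γ i)]
  [∀ i, DecidableEq (γ i)] {P : ∀ i, MvPolynomial (β i) k} {g : ∀ i, MvPolynomial (γ i) k}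
  {F : MvPolynomial (ι ⊕ ζ) k}

/-- The values of the blocks. -/
def bv (P : ∀ i, MvPolynomial (β i) k) (x : (Σ i, β i) ⊕ ζ → PowerSeries k) :
    ι ⊕ ζ → PowerSeries k :=
  Sum.elim (fun i => aeval (fun a => x (.inl ⟨i, a⟩)) (P i)) fun j => x (.inr j)

theorem aeval_sA (x : (Σ i, β i) ⊕ ζ → PowerSeries k) (F : MvPolynomial (ι ⊕ ζ) k) :
    aeval x (sA P F) = aeval (bv P x) F :=
  algHom_aeval _ _ _ (by rintro (i | j) <;> simp [bv, aeval_rename, Function.comp_def]) F

theorem pderiv_blk (i j : ι) (a : β i) : pderiv (.inl ⟨i, a⟩ : (Σ i, β i) ⊕ ζ)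
    (rename (fun a => .inl ⟨j, a⟩) (P j)) =
    if j = i then rename (fun a => .inl ⟨i, a⟩) (pderiv a (P i)) else 0 := by
  split_ifs with h
  · subst h
    exact pderiv_rename (f := fun a : β j => (.inl ⟨j, a⟩ : (Σ i, β i) ⊕ ζ))
      (fun a b h => by simpa using h) a _
  · refine pderiv_eq_zero_of_notMem_vars fun h' => ?_
    obtain ⟨a, -, ha⟩ := mem_vars_rename _ _ h'
    exact h (congrArg Sigma.fst (Sum.inl_injective ha))

theorem pderiv_sA_inl (i : ι) (a : β i) : pderiv (.inl ⟨i, a⟩) (sA P F) =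
    sA P (pderiv (.inl i) F) * rename (fun a => .inl ⟨i, a⟩) (pderiv a (P i)) := by
  rw [sA, sA, chain]
  simp [pderiv_blk]

theorem pderiv_sA_inr (j : ζ) : pderiv (.inr j) (sA P F) = sA P (pderiv (.inr j) F) := by
  have h : ∀ i, pderiv (.inr j : (Σ i, β i) ⊕ ζ) (rename (fun a => .inl ⟨i, a⟩) (P i)) = 0 :=
    fun i => pderiv_eq_zero_of_notMem_vars fun h' => by
      obtain ⟨a, -, ha⟩ := mem_vars_rename _ _ h'
      simp at ha
  rw [sA, sA, chain]
  simp [h, pderiv_X, Pi.single_apply]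

theorem cr_sA {x : (Σ i, β i) ⊕ ζ → PowerSeries k} {x' : (Σ i, γ i) ⊕ ζ → PowerSeries k}
    {M M' : ℕ} {n : ι → ℕ} (hM : M ≤ M') (hn : ∀ i, n i ≤ M') (hz : ∀ j, x (.inr j) = x' (.inr j))
    (h : ∀ i, BR (P i) (g i) (n i) M (fun a => x (.inl ⟨i, a⟩)) fun a => x' (.inl ⟨i, a⟩))
    (hc : Cr (sA g F) x' M') : Cr (sA P F) x M := by
  obtain ⟨h1, h2, h3⟩ := hc
  have h4 : ∀ F : MvPolynomial (ι ⊕ ζ) k,
      PowerSeries.X ^ M ∣ aeval x (sA P F) - aeval x' (sA g F) := fun F => by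
    rw [aeval_sA, aeval_sA]
    refine aeval_congr_dvd ?_ F
    rintro (i | j)
    exacts [(h i).2.1, by simp [bv, hz]]
  have h5 : ∀ {p : PowerSeries k} {a b}, a ≤ b → PowerSeries.X ^ b ∣ p → PowerSeries.X ^ a ∣ p :=
    fun e => (pow_dvd_pow _ e).trans
  refine ⟨?_, (dvd_iff_dvd_of_dvd_sub (h4 F)).2 (h5 hM h2), ?_⟩
  · rintro (⟨i, a⟩ | j)
    exacts [(h i).1 a, hz j ▸ h1 _]
  rintro (⟨i, a⟩ | j)
  · have h6 := (h i).2.2 (aeval x' (sA g (pderiv (.inl i) F))) (fun a => by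
      have := h5 (hn i) (h3 (.inl ⟨i, a⟩))
      rwa [pderiv_sA_inl, map_mul, aeval_rename] at this) a
    rw [pderiv_sA_inl, map_mul, aeval_rename]
    exact (dvd_iff_dvd_of_dvd_sub (sub_mul _ _ (_ : PowerSeries k) ▸ (h4 _).mul_right _)).2 h6
  · rw [pderiv_sA_inr]
    exact (dvd_iff_dvd_of_dvd_sub (h4 _)).2 (pderiv_sA_inr (P := g) j ▸ h5 hM (h3 (.inr j)))

theorem finrank_rel {V V' : Type} [AddCommGroup V] [Module k V] [AddCommGroup V'] [Module k V']
    [FiniteDimensional k V] [FiniteDimensional k V'] (W : Submodule k (V × V'))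
    (h1 : ∀ v, ∃ v', (v, v') ∈ W) (h2 : ∀ v', ∃ v, (v, v') ∈ W) {K : Submodule k V}
    {K' : Submodule k V'} (h : ∀ v v', (v, v') ∈ W → (v ∈ K ↔ v' ∈ K')) :
    Module.finrank k K' + Module.finrank k V = Module.finrank k K + Module.finrank k V' := by
  let a := K.mkQ ∘ₗ LinearMap.fst k V V' ∘ₗ W.subtype
  let b := K'.mkQ ∘ₗ LinearMap.snd k V V' ∘ₗ W.subtype
  have ha : LinearMap.range a = ⊤ := LinearMap.range_eq_top.2 (K.mkQ_surjective.comp
    fun v => (h1 v).elim fun v' hv => ⟨⟨_, hv⟩, rfl⟩)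
  have hb : LinearMap.range b = ⊤ := LinearMap.range_eq_top.2 (K'.mkQ_surjective.comp
    fun v => (h2 v).elim fun v' hv => ⟨⟨_, hv⟩, rfl⟩)
  have e : LinearMap.ker a = LinearMap.ker b := Submodule.ext fun w => by
    simpa [a, b] using h _ _ w.2
  have h3 := a.finrank_range_add_finrank_ker
  have h4 := b.finrank_range_add_finrank_ker
  have h5 := K.finrank_quotient_add_finrank
  have h6 := K'.finrank_quotient_add_finrank
  rw [ha, finrank_top, e] at h3
  rw [hb, finrank_top] at h4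
  omega

theorem generic [CharZero k] (K : Submodule k (τ → k)) {α : Type} (s : Finset α)
    (Q : α → MvPolynomial τ k) (h : ∀ a ∈ s, ∃ v ∈ K, eval v (Q a) ≠ 0) :
    ∃ v ∈ K, ∀ a ∈ s, eval v (Q a) ≠ 0 := by
  obtain ⟨K', hK⟩ := K.exists_isCompl
  let π := K.subtype ∘ₗ K.projectionOnto K' hK
  let L : τ → MvPolynomial τ k := fun j => ∑ i, C (π (Pi.single i 1) j) * X i
  have h1 : ∀ v p, eval v (aeval L p) = eval (π v) p := fun v p =>
    algHom_aeval (aeval v) L (π v) (fun j => by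
      conv_rhs => rw [← Finset.univ_sum_single v]
      simp only [L, map_sum, map_mul, aeval_C, aeval_X, Finset.sum_apply]
      refine Finset.sum_congr rfl fun i _ => ?_
      rw [show (Pi.single i (v i) : τ → k) = v i • Pi.single i 1 by simp [← Pi.single_smul],
        map_smul, mul_comm]
      rfl) p
  have h2 : ∏ a ∈ s, aeval L (Q a) ≠ 0 := Finset.prod_ne_zero_iff.2 fun a ha e => by
    obtain ⟨v, h2, h3⟩ := h a ha
    refine h3 ?_
    rw [← show π v = v from congrArg Subtype.val (Submodule.projectionOnto_apply_left hK ⟨v, h2⟩),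
      ← h1, e, map_zero]
  by_contra! h3
  refine h2 (MvPolynomial.funext fun v => ?_)
  obtain ⟨a, h4, h5⟩ := h3 (π v) (K.projectionOnto K' hK v).2
  rw [map_prod, map_zero]
  exact Finset.prod_eq_zero h4 ((h1 _ _).trans h5)

theorem hom_of {f : MvPolynomial σ k} {d : ℕ} (h : f.IsHomogeneous d) : Hom f d :=
  fun S _ _ s x => by
    rw [f.as_sum, map_sum, map_sum, Finset.mul_sum]
    refine Finset.sum_congr rfl fun v hv => ?_
    rw [aeval_monomial, aeval_monomial, Finsupp.prod, Finsupp.prod, h.degree_eq_sum_deg_support hv]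
    simp [mul_pow, Finset.prod_mul_distrib, Finset.prod_pow_eq_pow_sum, mul_left_comm]

theorem lowest {f : MvPolynomial σ k} {d : ℕ} (hd : ∀ i < d, homogeneousComponent i f = 0)
    {y : σ → PowerSeries k} (hy : Cen y) (h : PowerSeries.X ^ (d + 1) ∣ aeval y f) :
    eval (fc y) (homogeneousComponent d f) = 0 := by
  have h1 : f - homogeneousComponent d f ∈ idealOfVars σ k ^ (d + 1) := by
    rw [mem_pow_idealOfVars_iff']
    intro v hv
    rw [coeff_sub, coeff_homogeneousComponent]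
    split_ifs with e
    · exact sub_self _
    · have := congrArg (coeff v) (hd v.degree (by omega))
      rwa [coeff_homogeneousComponent, if_pos rfl, coeff_zero, ← sub_zero (coeff v f)] at this
  obtain ⟨u, e, h2⟩ := Hom.dvd (hom_of (homogeneousComponent_isHomogeneous d f)) hy
  have h3 := dvd_aeval_of_mem hy h1
  rw [map_sub, dvd_sub_right h, e, pow_succ,
    mul_dvd_mul_iff_left (pow_ne_zero _ PowerSeries.X_ne_zero), PowerSeries.X_dvd_iff] at h3
  exact h2 ▸ h3

theorem bd_sA [CharZero k] (hT : ∀ i, Tr (P i) (g i)) {f : MvPolynomial σ k} (hf : f ≠ 0)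
    (hS : Sg f) {c : k} (h : Eqv (hyp ρ f) (sA P F) c) (hc : c ≠ 0) :
    Bd (sA g F) (Fintype.card ρ) := by
  choose W q n t1 t2 t3 t4 t5 using hT
  let R : Submodule k (((Σ i, β i) ⊕ ζ → k) × ((Σ i, γ i) ⊕ ζ → k)) :=
    { carrier := {p | (∀ i, (fun a => p.1 (.inl ⟨i, a⟩), fun a => p.2 (.inl ⟨i, a⟩)) ∈ W i) ∧
        ∀ j, p.1 (.inr j) = p.2 (.inr j)}
      zero_mem' := ⟨fun i => zero_mem (W i), fun _ => rfl⟩
      add_mem' := fun h h' => ⟨fun i => add_mem (h.1 i) (h'.1 i), fun j =>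
        congrArg₂ (· + ·) (h.2 j) (h'.2 j)⟩
      smul_mem' := fun c _ h => ⟨fun i => (W i).smul_mem c (h.1 i), fun j =>
        congrArg (c * ·) (h.2 j)⟩ }
  have h1 : ∀ v v', (v, v') ∈ R → ∃ x x', Cen x ∧ Cen x' ∧ fc x = v ∧ fc x' = v' ∧
      ∀ M ≤ 2, Cr (sA P F) x M ↔ Cr (sA g F) x' M := fun v v' hv => by
    choose x x' e e' hx using fun i => t4 i _ _ (hv.1 i)
    refine ⟨Sum.elim (fun p => x p.1 p.2) fun j => ln v (.inr j),
      Sum.elim (fun p => x' p.1 p.2) fun j => ln v (.inr j), ?_, ?_, funext ?_, funext ?_,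
      fun M hM => ⟨cr_sA le_rfl (fun _ => le_rfl) (fun _ => rfl) fun i => (hx i M hM).2,
        cr_sA le_rfl (fun _ => le_rfl) (fun _ => rfl) fun i => (hx i M hM).1⟩⟩ <;>
      rintro (⟨i, a⟩ | j)
    exacts [(hx i 0 (by simp)).1.1 a, cen_ln v _, (hx i 0 (by simp)).2.1 a, cen_ln v _,
      congrFun (e i) a, congrFun (fc_ln v) _, congrFun (e' i) a,
      (congrFun (fc_ln v) _).trans (hv.2 j)]
  have hd : ∃ d, homogeneousComponent d f ≠ 0 := by
    by_contra! hd
    exact hf (by rw [← sum_homogeneousComponent f]; simp [hd])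
  classical
  obtain ⟨φ, e, g1, g2, g3⟩ := h (Nat.find hd + 3)
  obtain ⟨h2, h3⟩ := kr_comap g1 (g2 ▸ hc) (Ideal.pow_le_pow_right (by omega) g3) hS.hyp
  have h4 : Sg (sA g F) := by
    obtain ⟨x, x', a1, a2, -, -, a3⟩ := h1 0 0 (zero_mem R)
    exact (sg_iff a2).1 ((a3 1 (by simp)).1 ((sg_iff a1).2 h2))
  have h5 : ∀ v v', (v, v') ∈ R → (v ∈ Kr (sA P F) ↔ v' ∈ Kr (sA g F)) := fun v v' hv => by
    obtain ⟨x, x', a1, a2, rfl, rfl, a3⟩ := h1 v v' hv
    rw [← kr_iff h2 a1, ← kr_iff h4 a2, a3 2 le_rfl]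
  have h6 := finrank_rel R (fun v => by
    choose v' hv using fun i => t1 i fun a => v (.inl ⟨i, a⟩)
    exact ⟨Sum.elim (fun p => v' p.1 p.2) fun j => v (.inr j), hv, fun _ => rfl⟩) (fun v => by
    choose v' hv using fun i => t2 i fun a => v (.inl ⟨i, a⟩)
    exact ⟨Sum.elim (fun p => v' p.1 p.2) fun j => v (.inr j), hv, fun _ => rfl⟩) h5
  have h7 := g1.card
  have h8 := (Kr f).finrank_le
  have h9 : Module.finrank k (Kr (sA P F)) = Module.finrank k (Kr f) := by
    rw [h3, finrank_comap (dl_bij g1), finrank_hyp hS]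
  simp only [Module.finrank_fintype_fun_eq_card] at h6 h8
  rw [Fintype.card_sum, Fintype.card_sum] at h7
  refine ⟨h4, by omega, fun h10 h11 => ?_⟩
  have h12 : Kr f = ⊤ := Submodule.eq_top_of_finrank_eq (by
    rw [Module.finrank_fintype_fun_eq_card]; omega)
  have h13 : ∀ v, eval v (aeval (fun a => (∑ j, C (St.lin (φ (.inl a)) j) * X j :
      MvPolynomial _ k)) (homogeneousComponent (Nat.find hd) f)) =
      eval (dl φ v ∘ Sum.inl) (homogeneousComponent (Nat.find hd) f) := fun v =>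
    algHom_aeval (aeval v) _ _ (fun a => by simp [dl_apply]) _
  obtain ⟨v, h14, h15⟩ := generic (Kr (sA P F)) Finset.univ (fun o : Option ι => o.elim
    (aeval (fun a => ∑ j, C (St.lin (φ (.inl a)) j) * X j) (homogeneousComponent (Nat.find hd) f))
    fun i => rename (fun a => .inl ⟨i, a⟩) (q i)) (by
      rintro (_ | i) -
      · obtain ⟨u, hu⟩ : ∃ u, eval u (homogeneousComponent (Nat.find hd) f) ≠ 0 := by
          by_contra! hu
          exact Nat.find_spec hd (MvPolynomial.funext (by simpa using hu))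
        obtain ⟨v, hv⟩ := (dl_bij g1).2 (Sum.elim u 0)
        refine ⟨v, ?_, by rwa [Option.elim_none, h13, hv]⟩
        rw [h3, Submodule.mem_comap, hv]
        exact (kr_hyp hS _).2 ⟨by simp [h12], fun _ => rfl⟩
      · obtain ⟨u, a1, a2⟩ := t3 i
        refine ⟨Sum.elim (fun p => (Pi.single i u : ∀ i, β i → k) p.1 p.2) 0,
          (h5 _ 0 ⟨fun j => ?_, fun _ => rfl⟩).2 (zero_mem _), ?_⟩
        · by_cases e : j = i
          · subst e
            simp only [Sum.elim_inl, Pi.single_eq_same]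
            exact a2
          · simp only [Sum.elim_inl, Pi.single_eq_of_ne e]
            exact zero_mem (W j)
        · simpa [eval_rename, Function.comp_def] using a1)
  choose v' a1 a2 using fun i => t5 i (fun a => v (.inl ⟨i, a⟩)) (by
    simpa [eval_rename, Function.comp_def] using h15 (some i) (Finset.mem_univ _))
  obtain ⟨x', b1, b2⟩ := h11 (Sum.elim (fun p => v' p.1 p.2) fun j => v (.inr j))
    ((h5 v _ ⟨a1, fun _ => rfl⟩).1 h14) (Nat.find hd + 1 + ∑ i, n i)
  choose x b3 b4 using fun i => a2 i (fun a => x' (.inl ⟨i, a⟩)) (fun a => b1.1 _)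
    (funext fun a => congrFun b2 (.inl ⟨i, a⟩)) (Nat.find hd + 1)
  have b5 := cr_sA (x := Sum.elim (fun p => x p.1 p.2) fun j => x' (.inr j)) (x' := x')
    (Nat.le_add_right _ _) (fun i => Nat.add_le_add_left (Finset.single_le_sum (fun _ _ => Nat.zero_le _)
      (Finset.mem_univ i)) _) (fun _ => rfl) b4 b1
  have b6 := (cr_iff g1 (g2 ▸ hc) (Ideal.pow_le_pow_right (by omega) g3) b5.1).1 b5
  have b7 := ((cr_hyp b6.1).1 b6).1
  refine h15 none (Finset.mem_univ _) ?_
  rw [Option.elim_none, h13, ← lowest (fun i hi => not_not.1 (Nat.find_min hd hi)) b7.1 b7.2.1,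
    ← show fc (Sum.elim (fun p => x p.1 p.2) fun j => x' (.inr j)) = v from funext (by
      rintro (⟨i, a⟩ | j)
      exacts [congrFun (b3 i) a, congrFun b2 (.inr j)])]
  exact congrArg (eval · _) (funext fun a => (fc_aeval b5.1 φ _).symm)

end Asm

end

end Pool.Agent.P.MP_b91a16_ag.SC
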