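import Pool.Agent.P.MP_b91a16_ag.SC.Model

/-! The strong motivic monodromy conjecture for polynomials that are stably equivalent to a
composition of a nondegenerate polynomial with Jordan norms. -/

set_option linter.unusedSectionVars false

open MvPolynomial

namespace Pool.Agent.P.MP_b91a16_ag.SC

noncomputable section

open St Dt JB

variable {k σ τ υ : Type} [Field k] [Fintype σ] [DecidableEq σ] [Fintype τ] [DecidableEq τ]
  [Fintype υ] [DecidableEq υ]

theorem eqv_refl (H : MvPolynomial σ k) : Eqv H H 1 := fun _ =>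
  ⟨X, 1, et_ren (.refl σ), map_one _, by simp⟩

theorem eqv_ren {H : MvPolynomial σ k} {G : MvPolynomial τ k} {c : k} (h : Eqv H G c) (ε : τ ≃ υ) :
    Eqv H (rename ε G) c := fun M => by
  obtain ⟨φ, e, ⟨h1, B, h2, h3⟩, h4, h5⟩ := h M
  have h6 : (Matrix.of fun a j => St.lin (rename ε (φ a)) j) =
      (Matrix.of fun a j => St.lin (φ a) j).submatrix id ε.symm := by
    ext a j
    simpa using Nd.lin_ren ε.injective (φ a) (ε.symm j)
  refine ⟨fun a => rename ε (φ a), rename ε e, ⟨by simp [h1], B.submatrix ε.symm id, ?_, ?_⟩,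
    by simp [h4], ?_⟩
  · rw [h6, Matrix.submatrix_mul_equiv, h2, Matrix.submatrix_id_id]
  · rw [h6]
    exact (Matrix.submatrix_mul_equiv _ _ _ (.refl σ) _).trans (by
      rw [h3, Matrix.submatrix_one_equiv])
  · have h7 : (idealOfVars τ k).map (rename ε : MvPolynomial τ k →ₐ[k] _) ≤ idealOfVars υ k := by
      rw [Ideal.map_span, Ideal.span_le]
      rintro _ ⟨_, ⟨j, rfl⟩, rfl⟩
      exact Ideal.subset_span ⟨ε j, (rename_X _ _).symm⟩
    have h8 := Ideal.mem_map_of_mem (rename ε : MvPolynomial τ k →ₐ[k] _) h5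
    rw [Ideal.map_pow, map_sub, map_mul, algHom_aeval (rename ε) φ _ fun _ => rfl] at h8
    exact Ideal.pow_right_mono h7 M h8

theorem stab_data {n r : ℕ} {f : MvPolynomial (Fin n) k} {G : MvPolynomial (Fin (n + r + r)) k}
    {φ : Fin (n + r + r) → MvPowerSeries (Fin (n + r + r)) k}
    {e : MvPowerSeries (Fin (n + r + r)) k} (h2 : ∀ a, MvPowerSeries.constantCoeff (φ a) = 0)
    (h3 : (Matrix.of fun a j => MvPowerSeries.coeff (Finsupp.single j 1) (φ a)).det ≠ 0)
    (h4 : MvPowerSeries.constantCoeff e ≠ 0) (h6 : aeval φ (stab f r) = e * G) :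
    Eqv (hyp (Fin r) f) G (MvPowerSeries.constantCoeff e) ∧ ∀ b, LB f b →
      LB G ((Polynomial.X + 1) * b.comp (Polynomial.X + (r : Polynomial k))) := by
  let ε : Fin n ⊕ Fin r ⊕ Fin r ≃ Fin (n + r + r) := (Equiv.sumAssoc _ _ _).symm.trans
    ((finSumFinEquiv.sumCongr (.refl _)).trans finSumFinEquiv)
  have h7 : aeval (φ ∘ ε) (hyp (Fin r) f) = e * G := by
    rw [← h6, aeval_hyp]
    simp [stab, ε, aeval_rename, Function.comp_def]
  obtain ⟨B, h8, h9⟩ := exists_inv (IsUnit.mk0 _ h3) ε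
  obtain ⟨B', h11, -⟩ := exists_inv (A := Matrix.of fun a j => MvPowerSeries.pderiv k j (φ a))
    (MvPowerSeries.isUnit_iff_constantCoeff.2 (IsUnit.mk0 _ (by
      rw [RingHom.map_det]
      refine fun h => h3 (Eq.trans (congrArg Matrix.det ?_) h)
      ext a j
      simp [← MvPowerSeries.coeff_zero_eq_constantCoeff_apply, MvPowerSeries.coeff_pderiv]))) ε
  exact ⟨eqv_of (φ := φ ∘ ε) (fun a => h2 _) h8 h9 h7, fun b hb => by
    simpa using LB.pull (φ := φ ∘ ε) (fun a => h2 _) h11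
      (MvPowerSeries.isUnit_iff_constantCoeff.2 (IsUnit.mk0 _ h4)) h7 hb.hyp⟩

theorem main [CharZero k] {n q r l : ℕ} (f : MvPolynomial (Fin n) k) (hf : f ≠ 0)
    (h0 : constantCoeff f = 0) {β : Fin r → Type} (P : ∀ i, MvPolynomial (β i) k)
    (hP : ∀ i, IsNorm k (β i) (P i)) (ε : (Σ i, β i) ⊕ Fin l ≃ Fin (n + q + q))
    (F : MvPolynomial (Fin (r + l)) k) (hN : Nondeg F)
    (φ : Fin (n + q + q) → MvPowerSeries (Fin (n + q + q)) k)
    (e : MvPowerSeries (Fin (n + q + q)) k) (h2 : ∀ a, MvPowerSeries.constantCoeff (φ a) = 0)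
    (h3 : (Matrix.of fun a j => MvPowerSeries.coeff (Finsupp.single j 1) (φ a)).det ≠ 0)
    (h4 : MvPowerSeries.constantCoeff e ≠ 0) (h5 : aeval φ (stab f q) = e * comp P ε F) :
    ∃ S : Finset (ℕ × ℕ), zeta f ∈ poleRing k S ∧ ∀ p ∈ S, 0 < p.1 ∧ 0 < p.2 ∧
      ∀ b, LocalBernsteinEq f b → b.eval (-(p.1 : k) / p.2) = 0 := by
  have h11 : ∀ b, LocalBernsteinEq f b → b.eval (-((1 : ℕ) : k) / (1 : ℕ)) = 0 := fun b hb => by
    simpa using root_neg_one_loc hf h0 hb
  by_cases h1 : ∀ j, St.lin f j = 0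
  swap
  · obtain ⟨j, hj⟩ := not_forall.1 h1
    exact ⟨_, zeta_mem_of (S := ∅) fun d => mul_mem (X_mem_poleRing _)
      (mem_poleRing_of_eventually _ 0 (by simp [ex_smooth hj])), by simpa using h11⟩
  obtain ⟨a1, a2⟩ := stab_data h2 h3 h4 h5
  choose V i1 i2 g m p d g2 g3 g4 g5 using fun i => hasModel (hP i)
  let _ : ∀ i, DecidableEq (β i) := fun i => Classical.decEq _
  let _ : ∀ i, Fintype (β i) := fun i => Fintype.ofInjective (fun b => ε (.inl ⟨i, b⟩))
    fun a b h => by simpa using h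
  let _ : ∀ i, DecidableEq (Tv (V i) (d i) (p i)) := fun i => inferInstance
  let F' := rename finSumFinEquiv.symm F
  let ε' := Fintype.equivFin ((Σ i, Tv (V i) (d i) (p i)) ⊕ Fin l)
  have h6 : rename ε.symm (comp P ε F) = sA P F' := by
    rw [sA, aeval_rename]
    refine algHom_aeval _ _ _ (fun a => ?_) F
    induction a using Fin.addCases <;> simp [Function.comp_def]
  have h7 : Same (comp P ε F) (rename ε' (sA (fun i => tw (g i) (d i) (p i)) F')) :=
    (Same.of_rename ε.symm.injective h6).trans ((same_sA r _ _ P _ (fun i => (g5 i).1) _ F').trans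
      (Same.of_rename ε'.injective rfl))
  obtain ⟨r', φ', e', G, b2, b3, b4, b5, b6⟩ := nd _ _ _ V g m p d F' ((ND_iff.2 hN).rename _) g2 ε'
  obtain ⟨c1, c2⟩ := stab_data b2 b3 b4 b6
  have h8 := (((bd_sA (fun i => (g5 i).2.tr) hf ⟨h0, h1⟩ (h6 ▸ eqv_ren a1 ε.symm) h4).eqv
    (eqv_ren (eqv_refl _) ε') one_ne_zero).hyp).eqv c1 b4
  rw [Fintype.card_fin, Fintype.card_fin] at h8
  obtain ⟨S, h13, h14⟩ := newt G (fun h => by
    simpa using h8.pos (w := 0) one_pos (by simp [h])) h8.1.1 b5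
  have h15 : ∀ p ∈ S, q * p.2 + r' * p.2 < p.1 := fun p hp => by
    obtain ⟨h, -, w, h', h''⟩ := h14 p hp
    simpa [h', add_mul] using h8.pos h h''
  refine ⟨_, zeta_mem_of (S := (S.image fun p => (p.1 - r' * p.2, p.2)).image
    fun p => (p.1 - q * p.2, p.2)) fun c => ?_, fun p hp => ?_⟩
  · have h9 : ∀ {H : MvPolynomial (Fin (n + q + q)) k} {N} {H' : MvPolynomial (Fin N) k},
        Same H H' → ∀ c, exS H c = exS H' c := fun h c => by simp only [exS, St.ex, h.1]
    rw [exS_eq a1 h4, h9 h7, exS_eq c1 b4, Fintype.card_fin, Fintype.card_fin]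
    refine Subalgebra.smul_mem _ (rescale_mem (fun p hp => ?_) (Subalgebra.smul_mem _
      (rescale_mem (fun p hp => by have := h15 p hp; omega) (h13 _)) _)) _
    obtain ⟨p, hp', rfl⟩ := Finset.mem_image.1 hp
    exact Nat.le_sub_of_add_le (h15 p hp').le
  replace hp := (Finset.mem_insert.1 hp).imp_right Finset.mem_image.1
  obtain rfl | ⟨_, hp', rfl⟩ := hp
  · exact ⟨one_pos, one_pos, h11⟩
  obtain ⟨p, hp, rfl⟩ := Finset.mem_image.1 hp'
  have h16 := h15 p hp
  have h17 : (p.2 : k) ≠ 0 := Nat.cast_ne_zero.2 (h14 p hp).1.ne'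
  refine ⟨by dsimp only; omega, (h14 p hp).1, fun b hb => ?_⟩
  have h18 := (h14 p hp).2.1 _ (LB_iff.1 (c2 _ (h7.2 _ (a2 b (LB_iff.2 hb)))))
  simp only [Polynomial.eval_mul, Polynomial.eval_add, Polynomial.eval_X, Polynomial.eval_one,
    Polynomial.eval_comp, Polynomial.eval_natCast, mul_eq_zero] at h18
  obtain ⟨a, ha⟩ := Nat.exists_eq_add_of_le h16.le
  have h19 : -(p.1 : k) / p.2 = -(a : k) / p.2 - r' - q := by
    rw [ha]; push_cast; field_simp; ring
  have h20 : ∀ j : ℕ, j ≤ q + r' → -(p.1 : k) / p.2 + (r' + q - j) + 1 = 0 →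
      b.eval (-(a : k) / p.2) = 0 := fun j _ h => by
    have h21 : a + j * p.2 = p.2 := Nat.cast_injective (R := k) (by
      rw [h19] at h; push_cast; field_simp at h; linear_combination -h)
    obtain rfl : j = 0 := by
      rcases j with _ | j
      · rfl
      · rw [Nat.succ_mul] at h21
        omega
    simpa [show a = p.2 by omega, neg_div, h17] using h11 b hb
  rw [show p.1 - r' * p.2 - q * p.2 = a by omega]
  rcases h18 with h | h | h
  · exact h20 (q + r') le_rfl (by push_cast; linear_combination h)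
  · exact h20 q (by omega) (by linear_combination h)
  · rwa [h19, sub_right_comm, sub_add_cancel, sub_add_cancel] at h

end

end Pool.Agent.P.MP_b91a16_ag.SC
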