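import Pool.Agent.P.MP_b91a16_ag.SC.Blk
import Pool.Agent.P.MP_b91a16_ag.JB.Final

/-! Every norm has a model with transfer of critical arcs. -/

set_option linter.unusedSectionVars false

open MvPolynomial

namespace Pool.Agent.P.MP_b91a16_ag.SC

noncomputable section

open St Dt JB LawSym

variable {k β γ V α : Type} [Field k] [Fintype β] [DecidableEq β] [Fintype γ] [DecidableEq γ]
  [Fintype V] [DecidableEq V] [Fintype α] [DecidableEq α]

/-- A block is equivalent to its model, or both are homogeneous of the same degree `≥ 3`. -/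
def Rel (P : MvPolynomial β k) (g : MvPolynomial γ k) : Prop :=
  (∃ ψ : β → MvPolynomial γ k, Et ψ ∧ aeval ψ P = g) ∨
    ∃ n, Hom P (n + 3) ∧ Hom g (n + 3) ∧ P ≠ 0 ∧ ∀ c, ∃ v, eval v g = c

theorem Rel.tr [CharZero k] {P : MvPolynomial β k} {g : MvPolynomial γ k} (h : Rel P g) : Tr P g :=
  h.elim (fun ⟨_, h1, h2⟩ => tr_small h1 h2) fun ⟨_, h1, h2, h3, h4⟩ =>
    tr_big h1 h2 h3 fun _ => h4 _

theorem et_ren (e : β ≃ γ) : Et fun a => (X (e a) : MvPolynomial γ k) := by
  refine ⟨by simp, Matrix.of fun j a => if e a = j then 1 else 0, ?_, ?_⟩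
  · ext a b
    simp [Matrix.mul_apply, lin_X, Matrix.one_apply, eq_comm]
  · ext a b
    rw [Matrix.mul_apply, ← e.symm.sum_comp]
    simp [lin_X, Matrix.one_apply, eq_comm]

theorem Rel.lin {P : MvPolynomial β k} {g : MvPolynomial γ k} (h : Rel P g) {A : Matrix β β k}
    (hA : A.det ≠ 0) : Rel (aeval (fun i => ∑ j, C (A i j) * X j) P : MvPolynomial β k) g := by
  have h1 := Matrix.mul_nonsing_inv A (IsUnit.mk0 _ hA)
  have h2 := Matrix.nonsing_inv_mul A (IsUnit.mk0 _ hA)
  have h3 : ∀ {γ : Type} (ψ : β → MvPolynomial γ k), aeval (fun a => ∑ j, C (A⁻¹ a j) * ψ j)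
      (aeval (fun i => ∑ j, C (A i j) * X j) P : MvPolynomial β k) = aeval ψ P := fun ψ => by
    rw [aeval_aeval]
    refine congrArg (aeval · P) (funext fun i => ?_)
    simp only [map_sum, map_mul, aeval_C, aeval_X, Finset.mul_sum, algebraMap_eq]
    simp only [← mul_assoc, ← map_mul]
    rw [Finset.sum_comm]
    simp only [← Finset.sum_mul, ← map_sum, ← Matrix.mul_apply, h1]
    simp [Matrix.one_apply, apply_ite]
  rcases h with ⟨ψ, ⟨a0, B, a1, a2⟩, a3⟩ | ⟨n, a0, a1, a2, a3⟩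
  · have e : (Matrix.of fun a j => St.lin (∑ i, C (A⁻¹ a i) * ψ i) j) =
        A⁻¹ * Matrix.of fun a j => St.lin (ψ a) j := by
      ext a j
      simp [Matrix.mul_apply, St.lin]
    refine .inl ⟨_, ⟨by simp [a0], B * A, ?_, ?_⟩, (h3 ψ).trans a3⟩
    · rw [e, Matrix.mul_assoc, ← Matrix.mul_assoc _ B, a1, Matrix.one_mul, h2]
    · rw [e, Matrix.mul_assoc, ← Matrix.mul_assoc A, h1, Matrix.one_mul, a2]
  · refine .inr ⟨n, fun S _ _ s x => ?_, a1, fun e => a2 ?_, a3⟩
    · rw [aeval_aeval, aeval_aeval, ← a0]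
      refine congrArg (aeval · P) (funext fun i => ?_)
      simp [Finset.mul_sum, mul_left_comm]
    · rw [← aeval_X_left_apply P, ← h3 X, e, map_zero]

theorem tw_surj {g : MvPolynomial V k} (h : ∀ c, ∃ v, eval v g = c) {d : α → ℕ} (hd : ∀ i, 0 < d i)
    (p : ℕ) (c : k) : ∃ v, eval v (tw g d p) = c := by
  let I₀ : Fin p → Ix d := fun _ i => ⟨0, hd i⟩
  obtain ⟨v, rfl⟩ := h c
  exact ⟨Sum.elim (fun q => if q.2 = I₀ then v q.1 else 0) fun _ => 1,
    algHom_aeval (aeval _) _ v (fun v => by simp) g⟩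

variable (k) in
/-- `P` has a model. -/
def HasModel (β : Type) (P : MvPolynomial β k) : Prop :=
  ∃ (V : Type) (_ : Fintype V) (_ : DecidableEq V) (g : MvPolynomial V k) (m p : ℕ)
    (d : Fin m → ℕ), PV g ∧ g ≠ 0 ∧ (∀ i, 0 < d i) ∧
    ∀ [Fintype β] [DecidableEq β], Blk P (tw g d p) ∧ Rel P (tw g d p)

theorem HasModel.mk {β : Type} [i1 : Fintype β] [i2 : DecidableEq β] {P : MvPolynomial β k}
    {g : MvPolynomial V k} {m p : ℕ} {d : Fin m → ℕ} (h1 : PV g) (h2 : g ≠ 0) (h3 : ∀ i, 0 < d i)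
    (h4 : Blk P (tw g d p)) (h5 : Rel P (tw g d p)) : HasModel k β P :=
  ⟨V, _, _, g, m, p, d, h1, h2, h3, by
    intro j1 j2
    obtain rfl := Subsingleton.elim i1 j1
    obtain rfl := Subsingleton.elim i2 j2
    exact ⟨h4, h5⟩⟩

theorem HasModel.self {P : MvPolynomial β k} (h1 : PV P) (h2 : P ≠ 0) : HasModel k β P := by
  let ε : β → Tv β (Fin.elim0 : Fin 0 → ℕ) 0 := fun v => .inl (v, (·.elim0))
  have h3 : Function.Bijective ε := ⟨fun _ _ e => by simpa [ε] using e, by
    rintro (⟨v, I⟩ | ⟨i, -⟩)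
    exacts [⟨v, by simp [ε, Subsingleton.elim I (·.elim0)]⟩, i.elim0]⟩
  have h4 : rename ε P = tw P Fin.elim0 0 := by
    rw [rename_eq_aeval]
    refine congrArg (aeval · _) (funext fun v => ?_)
    rw [Finset.sum_eq_single (·.elim0) (fun I _ h => (h (Subsingleton.elim _ _)).elim)
      fun h => (h (Finset.mem_univ _)).elim]
    simp [ε]
  exact .mk h1 h2 (·.elim0) (.of_rename h3.1 h4)
    (.inl ⟨_, et_ren (.ofBijective ε h3), (rename_eq_aeval (R := k) ε ▸ h4 :)⟩)

theorem pv_one {P : MvPolynomial β k} {a : β} {c : k} (hc : c ≠ 0) (h : P = C c * X a) :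
    HasModel k β P :=
  .self ⟨Unit, inferInstance, fun _ => a, 0, fun _ => c, fun _ => c, fun _ => hc,
    by simp [h, mul_comm], by simp [h]⟩ (by simp [h, hc])

theorem pv_two {P : MvPolynomial β k} {m : ℕ} (a b : Fin (m + 1) → β) (c c' : Fin (m + 1) → k)
    (hc : ∀ i, c' i ≠ 0) (h : P = ∑ i, C (c i) * X (a i) * X (b i))
    (h' : ∀ i, pderiv (a i) P = C (c' i) * X (b i)) : HasModel k β P :=
  .self ⟨_, inferInstance, a, fun i => Finsupp.single (b i) 1, c, c', hc,
    h.trans (Finset.sum_congr rfl fun i _ => by rw [← C_mul_X_eq_monomial]; ring),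
    fun i => by rw [h', C_mul_X_eq_monomial]⟩ fun e => by simpa [e, hc] using h' 0

theorem det_skew4 : (skew k (2 * 2)).det = (X ⟨(0, 1), by decide⟩ * X ⟨(2, 3), by decide⟩ -
    X ⟨(0, 2), by decide⟩ * X ⟨(1, 3), by decide⟩ +
    X ⟨(0, 3), by decide⟩ * X ⟨(1, 2), by decide⟩) ^ 2 := by
  have h : ∀ a b c d e f : MvPolynomial {p : Fin 4 × Fin 4 // p.1 < p.2} k,
      Matrix.det !![0, a, b, c; -a, 0, d, e; -b, -d, 0, f; -c, -e, -f, 0] =
        (a * f - b * e + c * d) ^ 2 := fun a b c d e f => by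
    simp [Matrix.det_succ_row_zero, Fin.sum_univ_succ, Fin.succAbove]
    ring
  rw [← h]
  congr 1
  ext i j : 2
  fin_cases i <;> fin_cases j <;> rfl

theorem root_sq {P Q : MvPolynomial β k} (h : P ^ 2 = Q ^ 2) : ∃ c : k, c ≠ 0 ∧ P = C c * Q :=
  (sq_eq_sq_iff_eq_or_eq_neg.1 h).elim (fun e => ⟨1, one_ne_zero, by simp [e]⟩)
    fun e => ⟨-1, by simp, by simp [e]⟩

theorem hasModel [CharZero k] {β : Type} {P : MvPolynomial β k} (h : IsNorm k β P) :
    HasModel k β P := by
  have h0 : TransStmt k := trans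
  have h4 : LowStmt k := low
  have h7 : LawSymStmt k := lawSym lawTw quad symRec
  have hd : ∀ (m : ℕ) (i : Fin m), 2 * (m - i) + 1 + 2 * i = 2 * m + 1 := fun m i => by omega
  have hZ : ∀ c : k, ∃ v, eval v (X () : MvPolynomial Unit k) = c := fun c => ⟨fun _ => c, by simp⟩
  induction h with
  | lin β P _ A hA ih =>
    obtain ⟨V, _, _, g, m, p, d, g1, g2, g3, g4⟩ := ih
    exact .mk g1 g2 g3 ((Blk.lin hA P).trans g4.1) (g4.2.lin hA)
  | det n hn =>
    obtain rfl | rfl | ⟨m, hm⟩ : n = 1 ∨ n = 2 ∨ ∃ m, n = m + 3 := by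
      rcases n with _ | _ | _ | n <;> simp at hn ⊢
    · exact pv_one (a := (0, 0)) one_ne_zero (by simp)
    · refine pv_two ![(0, 0), (0, 1)] ![(1, 1), (1, 0)] ![1, -1] ![1, -1] (by simp [Fin.forall_fin_two])
        (by simp [Matrix.det_fin_two, sub_eq_add_neg]) ?_
      simp [Fin.forall_fin_two, Matrix.det_fin_two, pderiv_X]
    obtain ⟨n, rfl⟩ := Nat.exists_eq_succ_of_ne_zero hn.ne'
    have hd : ∀ t : Fin n, n + 1 - t + t = n + 1 := fun t => by omega
    refine .mk (d := fun t : Fin n => n + 1 - t) (p := 1) pv_Z (X_ne_zero _) (fun t => by omega)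
      (Blk.trans (fun ζ _ _ G => ⟨vol_sb _ _ hd G, fun b => LB_sb _ _ hd⟩)
        (.of_rename (ε := Sum.map (fun I => ((), fun _ => I)) id) (Function.Injective.sumMap
          (fun I J e => congrFun (congrArg Prod.snd e) 0) Function.injective_id) ?_))
      (.inr ⟨m, by simpa [← hm] using hom_det (A := Matrix.of fun p q : Fin (n + 1) =>
        (X (p, q) : MvPolynomial _ k)) fun i j => hom_X _, by
          simpa [← hm] using hom_Z.tw (α := Fin n) _ 1, fun e => ?_,
        tw_surj hZ (fun t => by omega) _⟩)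
    · simp only [mdl, tw, aeval_X, map_sum, map_mul, map_prod, rename_X]
      exact Fintype.sum_equiv (Equiv.funUnique (Fin 1) _).symm _ _ fun I => by simp [_root_.funext_iff]
    · have := congrArg (eval fun p => (1 : Matrix _ _ k) p.1 p.2) e
      rw [RingHom.map_det, map_zero] at this
      exact one_ne_zero (Matrix.det_one.symm.trans ((congrArg _ (by ext; simp)).trans this))
  | sym n hn =>
    obtain rfl | rfl | ⟨m', hm⟩ : n = 1 ∨ n = 2 ∨ ∃ m, n = m + 3 := by
      rcases n with _ | _ | _ | n <;> simp at hn ⊢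
    · exact pv_one (a := s(0, 0)) one_ne_zero (by simp)
    · refine pv_two ![s(0, 0), s(0, 1)] ![s(1, 1), s(0, 1)] ![1, -1] ![1, -2]
        (by simp [Fin.forall_fin_two]) (by simp [Matrix.det_fin_two, sub_eq_add_neg, Sym2.eq_swap]) ?_
      simp [Fin.forall_fin_two, Matrix.det_fin_two, pderiv_X, Sym2.eq_swap, map_ofNat]
      ring
    have hw : ∀ s : Sym2 (Fin n), (if s.IsDiag then 2 else 1 : k) ≠ 0 := fun s => by
      split_ifs <;> simp
    have hb : ∀ j : ℕ, (∏ i ∈ Finset.range n, (2 * j + i + 2 : k)) ≠ 0 := fun j =>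
      Finset.prod_ne_zero_iff.2 fun i _ => by norm_cast
    have hh : Hom (symD k n) n := by
      simpa [symD] using hom_det (A := Matrix.of fun p q : Fin n => X s(p, q)) fun i j => hom_X _
    have hne : symD k n ≠ 0 := fun e => by
      have := congrArg (eval fun s => if s.IsDiag then (1 : k) else 0) e
      rw [symD, RingHom.map_det, map_zero] at this
      exact one_ne_zero (Matrix.det_one.symm.trans
        ((congrArg _ (by ext; simp [Matrix.one_apply])).trans this))
    obtain ⟨m, rfl | rfl⟩ : ∃ m, n = 2 * m + 1 ∨ n = 2 * m + 2 := ⟨(n - 1) / 2, by omega⟩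
    · have hg : Hom (tw (X () : MvPolynomial Unit k) (fun i : Fin m => 2 * (m - i) + 1) 2)
          (2 * m + 1) := by simpa using hom_Z.tw (α := Fin m) _ 2
      refine .mk pv_Z (X_ne_zero _) (fun t => by omega) (blk h0 (h7 m _ (hd m)).1 hh hg hw hb
        (caySym peirce _) (((h4 m _ fun t => by omega).1 2).smul 2 fun j => ?_))
        (.inr ⟨m', hm ▸ hh, hm ▸ hg, hne, tw_surj hZ (fun t => by omega) _⟩)
      rw [prod_sym _ m _ (hd m)]
      simp [Finset.prod_range_succ]
      ring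
    · have hc : ((-1 : k) ^ (m + 1)) ≠ 0 := pow_ne_zero _ (by simp)
      have hg := (hom_Q ((-1 : k) ^ (m + 1)) (m + 1)).tw (fun i : Fin m => 2 * (m - i) + 1) 1
      rw [show (1 * Fintype.card (Fin m) + 1) * 2 = 2 * m + 1 + 1 by simp; ring] at hg
      refine .mk (pv_Q hc _) (fun e => ?_) (fun t => by omega) (blk h0 (h7 m _ (hd m)).2 hh hg
        hw hb (caySym peirce _) (((h4 m _ fun t => by omega).2 _ _ hc).smul 2 fun j => ?_))
        (.inr ⟨m', hm ▸ hh, hm ▸ hg, hne, tw_surj (fun c => ⟨fun o => o.elim 0 (Sum.elim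
          (Pi.single 0 (c / (-1) ^ (m + 1))) 1), ?_⟩) (fun t => by omega) _⟩)
      · simpa [Qd] using congrArg (eval fun o => o.elim 1 0) e
      · rw [Finset.prod_range_succ, prod_sym _ m _ (hd m)]
        push_cast
        ring
      · simp [Qd, mul_div_cancel₀ _ hc]
  | pf n hn P h =>
    obtain rfl | rfl | ⟨m, hm⟩ : n = 1 ∨ n = 2 ∨ ∃ m, n = m + 3 := by
      rcases n with _ | _ | _ | n <;> simp at hn ⊢
    · have e : (skew k (2 * 1)).det = X ⟨(0, 1), by decide⟩ ^ 2 :=
        (Matrix.det_fin_two _).trans (by simp [skew, sq])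
      exact (root_sq (h.trans e)).elim fun c hc => pv_one hc.1 hc.2
    · obtain ⟨c, hc, e⟩ := root_sq (h.trans det_skew4)
      refine pv_two ![⟨(0, 1), by decide⟩, ⟨(0, 2), by decide⟩, ⟨(0, 3), by decide⟩]
        ![⟨(2, 3), by decide⟩, ⟨(1, 3), by decide⟩, ⟨(1, 2), by decide⟩] ![c, -c, c] ![c, -c, c]
        (by simp [Fin.forall_fin_succ, hc]) (by simp [e, Fin.sum_univ_succ]; ring) ?_
      simp [e, Fin.forall_fin_succ, pderiv_X]
    obtain ⟨n, rfl⟩ := Nat.exists_eq_succ_of_ne_zero hn.ne'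
    have hh : Hom P (n + 1) := .of_sq (by
      rw [h]
      simpa using hom_det (A := skew k (2 * (n + 1))) fun i j S _ _ s x => by
        simp only [skew, Matrix.of_apply]
        split_ifs <;> simp)
    have hg : Hom (tw (X () : MvPolynomial Unit k) (fun i : Fin n => 2 * (n - i) + 1) 1) (n + 1) := by
      simpa using hom_Z.tw (α := Fin n) _ 1
    refine .mk pv_Z (X_ne_zero _) (fun t => by omega) (blk h0 (lawPf lawTw n P h _ (hd n)) hh hg
      (fun _ => one_ne_zero) (fun j => Finset.prod_ne_zero_iff.2 fun i _ => by norm_cast)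
      (cayPf peirce _ P h) (((h4 n _ fun t => by omega).1 1).smul 1 fun j => ?_))
      (.inr ⟨m, hm ▸ hh, hm ▸ hg, fun e => CayPf.det_ne (k := k) (n + 1) (by rw [← h, e]; simp),
        tw_surj hZ (fun t => by omega) _⟩)
    rw [prod_pf _ n _ (hd n)]
    simp
  | quad n hn a ha =>
    refine .self (pv_diag ha) fun e => ha ⟨0, hn⟩ ?_
    simpa [Pi.single_apply] using congrArg (eval (Pi.single ⟨0, hn⟩ 1)) e
  | e6 =>
    have hg : Hom (tw (X () : MvPolynomial Unit k) ![5, 9] 1) 3 := by simpa using hom_Z.tw ![5, 9] 1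
    refine .mk pv_Z (X_ne_zero _) (by decide) (blk h0 (lawE6 lawTw) hom_e6 hg
      (fun _ => one_ne_zero) (fun j => by norm_cast) cayE6
      (((h4 2 _ (by decide)).1 1).smul 1 fun j => ?_))
      (.inr ⟨0, hom_e6, hg, fun e => ?_, tw_surj hZ (by decide) _⟩)
    · simp
      ring
    · simpa [mat3, Matrix.det_fin_three, Matrix.trace_fin_three, Matrix.mul_apply,
        Fin.sum_univ_three] using
        congrArg (eval fun p => if p.1 = 0 ∧ p.2.1 = p.2.2 then (1 : k) else 0) e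

end

end Pool.Agent.P.MP_b91a16_ag.SC
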