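import Pool.Agent.P.MP_b91a16_ag.JB.Base

/-! Critical arcs, the kernel of the Hessian and positivity of weights. -/

set_option linter.unusedSectionVars false

open MvPolynomial

namespace Pool.Agent.P.MP_b91a16_ag.SC

noncomputable section

open St Dt

variable {k σ τ ρ α : Type} [Field k] [Fintype σ] [DecidableEq σ] [Fintype τ] [DecidableEq τ]
  [Fintype ρ] [DecidableEq ρ]

/-- Tangent vector of an arc. -/
def fc (γ : τ → PowerSeries k) : τ → k := fun j => PowerSeries.coeff 1 (γ j)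

/-- The line in the direction `v`. -/
def ln (v : τ → k) : τ → PowerSeries k := fun j => PowerSeries.C (v j) * PowerSeries.X

theorem cen_ln (v : τ → k) : Cen (ln v) := fun _ => Dvd.intro_left _ rfl

theorem fc_ln (v : τ → k) : fc (ln v) = v := funext fun j => by simp [fc, ln]

/-- Linear part of a polynomial map. -/
def dl (φ : α → MvPolynomial τ k) : (τ → k) →ₗ[k] α → k :=
  LinearMap.pi fun a => ∑ j, St.lin (φ a) j • LinearMap.proj j

theorem dl_apply (φ : α → MvPolynomial τ k) (v : τ → k) (a : α) :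
    dl φ v a = ∑ j, St.lin (φ a) j * v j := by simp [dl]

theorem fc_aeval {γ : τ → PowerSeries k} (h : Cen γ) (φ : α → MvPolynomial τ k) (a : α) :
    PowerSeries.coeff 1 (aeval γ (φ a)) = dl φ (fc γ) a := by
  have h1 := taylor (S := PowerSeries k) (s := PowerSeries.X) (t := PowerSeries.X) (γ := 0)
    (γ' := γ) (by simp) h (fun j => by simpa using h j) (φ a)
  rw [← sq] at h1
  have h2 := (dvd_succ_iff.1 h1).2
  rw [dl_apply]
  simpa [alg_ps, fc, sub_eq_zero, PowerSeries.coeff_C] using h2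

theorem sq_dvd {γ : τ → PowerSeries k} (h : Cen γ) {φ : α → MvPolynomial τ k} {a : α}
    (h0 : constantCoeff (φ a) = 0) : PowerSeries.X ^ 2 ∣ aeval γ (φ a) ↔ dl φ (fc γ) a = 0 := by
  rw [dvd_succ_iff, fc_aeval h, and_iff_right]
  simpa [h0] using dvd_aeval_sub_const h (φ a)

/-- Critical arcs. -/
def Cr (H : MvPolynomial τ k) (γ : τ → PowerSeries k) (M : ℕ) : Prop :=
  Cen γ ∧ PowerSeries.X ^ M ∣ aeval γ H ∧ ∀ j, PowerSeries.X ^ M ∣ aeval γ (pderiv j H)

/-- `H` is singular at the origin. -/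
def Sg (H : MvPolynomial τ k) : Prop := constantCoeff H = 0 ∧ ∀ j, St.lin H j = 0

theorem sg_iff {H : MvPolynomial τ k} {γ : τ → PowerSeries k} (h : Cen γ) : Cr H γ 1 ↔ Sg H := by
  have h1 : ∀ g : MvPolynomial τ k, PowerSeries.X ^ 1 ∣ aeval γ g ↔ constantCoeff g = 0 := fun g => by
    rw [pow_one, dvd_iff_dvd_of_dvd_sub (dvd_aeval_sub_const h g), PowerSeries.X_dvd_iff]
    simp
  simp only [Cr, Sg, h1, St.lin, h, true_and]

/-- Kernel of the Hessian. -/
def Kr (H : MvPolynomial τ k) : Submodule k (τ → k) := LinearMap.ker (dl fun j => pderiv j H)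

theorem kr_iff {H : MvPolynomial τ k} (hH : Sg H) {γ : τ → PowerSeries k} (h : Cen γ) :
    Cr H γ 2 ↔ fc γ ∈ Kr H := by
  have h1 : PowerSeries.X ^ 2 ∣ aeval γ H :=
    (sq_dvd h (φ := fun _ : Unit => H) (a := ()) hH.1).2 (by simp [dl_apply, hH.2])
  simp only [Cr, h, h1, true_and, Kr, LinearMap.mem_ker, funext_iff]
  exact forall_congr' fun j => sq_dvd h (φ := fun j => pderiv j H) (hH.2 j)

/-- Every vector of the kernel of the Hessian is tangent to critical arcs. -/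
def MB (H : MvPolynomial τ k) : Prop := ∀ v ∈ Kr H, ∀ M, ∃ γ, Cr H γ M ∧ fc γ = v

/-- The Hessian has rank at least `2 R`, and `H` is not a quadratic form of rank `2 R`. -/
def Bd (H : MvPolynomial τ k) (R : ℕ) : Prop := Sg H ∧
  Module.finrank k (Kr H) + 2 * R ≤ Fintype.card τ ∧
    (Module.finrank k (Kr H) + 2 * R = Fintype.card τ → ¬ MB H)

section Step

variable {H : MvPolynomial σ k} {G e : MvPolynomial τ k} {φ : σ → MvPolynomial τ k}

theorem cr_iff (h : Et φ) (he : constantCoeff e ≠ 0) {M : ℕ}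
    (hR : aeval φ H - e * G ∈ idealOfVars τ k ^ (M + 1)) {γ : τ → PowerSeries k} (hγ : Cen γ) :
    Cr G γ M ↔ Cr H (fun a => aeval γ (φ a)) M := by
  have hu := isUnit_aeval hγ he
  have h5 := (pow_dvd_pow _ M.le_succ).trans (dvd_aeval_of_mem hγ hR)
  rw [map_sub, map_mul, aeval_aeval] at h5
  have h6 : PowerSeries.X ^ M ∣ aeval γ G ↔
      PowerSeries.X ^ M ∣ aeval (fun a => aeval γ (φ a)) H := by
    rw [dvd_iff_dvd_of_dvd_sub h5, hu.dvd_mul_left]
  have h4 : ∀ j, PowerSeries.X ^ M ∣ ∑ a, aeval (fun a => aeval γ (φ a)) (pderiv a H) *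
      aeval γ (pderiv j (φ a)) - (aeval γ e * aeval γ (pderiv j G) +
        aeval γ G * aeval γ (pderiv j e)) := fun j => by
    simpa only [map_sub, chain, Derivation.leibniz, map_add, smul_eq_mul, map_mul, map_sum,
      aeval_aeval] using dvd_aeval_of_mem hγ (pderiv_mem_pow hR j)
  refine ⟨fun ⟨_, h1, h2⟩ => ⟨h.cen hγ, h6.1 h1, h.dvd_of_sum hγ M fun j =>
    (dvd_iff_dvd_of_dvd_sub (h4 j)).2 (dvd_add ((h2 j).mul_left _) (h1.mul_right _))⟩,
    fun ⟨_, h1, h2⟩ => ⟨hγ, h6.2 h1, fun j => ?_⟩⟩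
  have h7 := (dvd_iff_dvd_of_dvd_sub (h4 j)).1 (Finset.dvd_sum fun a _ => (h2 a).mul_right _)
  rwa [dvd_add_left ((h6.2 h1).mul_right _), hu.dvd_mul_left] at h7

theorem dl_bij (h : Et φ) : Function.Bijective (dl φ) :=
  ⟨(injective_iff_map_eq_zero _).2 fun v hv => h.inj v fun a => by
    simpa [dl_apply] using congrFun hv a, fun c => (h.surj c).imp fun v hv => funext fun a => by
    simpa [dl_apply] using hv a⟩

theorem kr_comap (h : Et φ) (he : constantCoeff e ≠ 0)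
    (hR : aeval φ H - e * G ∈ idealOfVars τ k ^ 3) (hH : Sg H) :
    Sg G ∧ Kr G = (Kr H).comap (dl φ) := by
  have h1 : Sg G := (sg_iff (cen_ln 0)).1 ((cr_iff h he (Ideal.pow_le_pow_right (by norm_num) hR)
    (cen_ln 0)).2 ((sg_iff (h.cen (cen_ln 0))).2 hH))
  refine ⟨h1, Submodule.ext fun v => ?_⟩
  rw [← fc_ln v, ← kr_iff h1 (cen_ln v), cr_iff h he hR (cen_ln v), kr_iff hH (h.cen (cen_ln v)),
    Submodule.mem_comap]
  exact iff_of_eq (congrArg (· ∈ _) (funext (fc_aeval (cen_ln v) φ)))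

theorem finrank_comap {V W : Type} [AddCommGroup V] [Module k V] [AddCommGroup W] [Module k W]
    {T : V →ₗ[k] W} (h : Function.Bijective T) (K : Submodule k W) :
    Module.finrank k (K.comap T) = Module.finrank k K :=
  ((LinearEquiv.ofBijective T h).ofSubmodule' K).finrank_eq

theorem Bd.eqv {c : k} {R : ℕ} (h : Bd H R) (h' : Eqv H G c) (hc : c ≠ 0) : Bd G R := by
  obtain ⟨φ, e, h1, h2, h3⟩ := h' 3
  obtain ⟨h4, h5⟩ := kr_comap h1 (h2 ▸ hc) h3 h.1
  have h6 : Module.finrank k (Kr G) = Module.finrank k (Kr H) := by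
    rw [h5, finrank_comap (dl_bij h1)]
  refine ⟨h4, h6 ▸ h1.card ▸ h.2.1, fun h7 h8 => h.2.2 (h6 ▸ h1.card ▸ h7) fun v hv M => ?_⟩
  obtain ⟨φ, e, g1, g2, g3⟩ := h' (M + 3)
  obtain ⟨v, rfl⟩ := (dl_bij g1).2 v
  obtain ⟨γ, g4, rfl⟩ := h8 v (by
    rwa [(kr_comap g1 (g2 ▸ hc) (Ideal.pow_le_pow_right (by omega) g3) h.1).2]) M
  exact ⟨_, (cr_iff g1 (g2 ▸ hc) (Ideal.pow_le_pow_right (by omega) g3) g4.1).1 g4,
    funext (fc_aeval g4.1 φ)⟩

theorem cr_hyp {γ : σ ⊕ ρ ⊕ ρ → PowerSeries k} {M : ℕ} (h : Cen γ) : Cr (hyp ρ H) γ M ↔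
    Cr H (γ ∘ Sum.inl) M ∧ ∀ b, PowerSeries.X ^ M ∣ γ (.inr b) := by
  simp only [Cr, Sum.forall, pderiv_hyp_x, pderiv_hyp_u, pderiv_hyp_y, aeval_X, aeval_rename,
    aeval_hyp]
  refine ⟨fun ⟨_, h1, h2, h3, h4⟩ => ⟨⟨fun j => h _, ?_, h2⟩, h4, h3⟩,
    fun ⟨⟨_, h1, h2⟩, h3, h4⟩ => ⟨h, ?_, h2, h4, h3⟩⟩
  · exact (dvd_add_left (Finset.dvd_sum fun i _ => (h4 i).mul_right _)).1 h1
  · exact dvd_add h1 (Finset.dvd_sum fun i _ => (h3 i).mul_right _)

theorem Sg.hyp (h : Sg H) : Sg (hyp ρ H) :=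
  (sg_iff (cen_ln 0)).1 ((cr_hyp (cen_ln 0)).2 ⟨(sg_iff fun j => cen_ln 0 _).2 h,
    fun b => by simp [ln]⟩)

theorem kr_hyp (h : Sg H) (v : σ ⊕ ρ ⊕ ρ → k) :
    v ∈ Kr (hyp ρ H) ↔ v ∘ Sum.inl ∈ Kr H ∧ ∀ b, v (.inr b) = 0 := by
  conv_lhs => rw [← fc_ln v, ← kr_iff h.hyp (cen_ln v), cr_hyp (cen_ln v)]
  refine and_congr ((kr_iff h fun j => cen_ln v _).trans (iff_of_eq (congrArg (· ∈ _)
    (fc_ln _)))) (forall_congr' fun b => ?_)
  rw [dvd_succ_iff]
  simp [ln]

theorem finrank_hyp (h : Sg H) : Module.finrank k (Kr (hyp ρ H)) = Module.finrank k (Kr H) := by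
  refine (LinearEquiv.ofBijective ((LinearMap.funLeft k k Sum.inl).restrict
    fun v hv => ((kr_hyp h v).1 hv).1) ⟨fun v w e => Subtype.ext (funext ?_), fun v =>
      ⟨⟨Sum.elim v 0, (kr_hyp h _).2 ⟨v.2, fun _ => rfl⟩⟩, rfl⟩⟩).finrank_eq
  rintro (j | b)
  · exact congrFun (congrArg Subtype.val e) j
  · rw [((kr_hyp h _).1 v.2).2, ((kr_hyp h _).1 w.2).2]

theorem Bd.hyp {R : ℕ} (h : Bd H R) : Bd (hyp ρ H) (R + Fintype.card ρ) := by
  have h1 := finrank_hyp (ρ := ρ) h.1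
  have h2 := h.2.1
  refine ⟨h.1.hyp, by simp only [Fintype.card_sum]; omega, fun h3 h4 => h.2.2 (by
    simp only [Fintype.card_sum] at h3; omega) fun v hv M => ?_⟩
  obtain ⟨γ, h5, h6⟩ := h4 (Sum.elim v 0) ((kr_hyp h.1 _).2 ⟨hv, fun _ => rfl⟩) M
  exact ⟨_, ((cr_hyp h5.1).1 h5).1, funext fun j => congrFun h6 (.inl j)⟩

end Step

theorem jet_lift {φ : α → MvPolynomial τ k} (h0 : ∀ a, constantCoeff (φ a) = 0)
    (hs : Function.Surjective (dl φ)) {v : τ → k} (hv : dl φ v = 0) (m : ℕ) :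
    ∃ γ, Cen γ ∧ fc γ = v ∧ ∀ a, PowerSeries.X ^ (m + 2) ∣ aeval γ (φ a) := by
  induction m with
  | zero => exact ⟨ln v, cen_ln v, fc_ln v, fun a =>
      (sq_dvd (cen_ln v) (h0 a)).2 (by rw [fc_ln, hv]; rfl)⟩
  | succ m ih =>
    obtain ⟨γ, h1, h1', h2⟩ := ih
    obtain ⟨u, hu⟩ := hs fun a => -PowerSeries.coeff (m + 2) (aeval γ (φ a))
    have h3 : Cen fun j => γ j + PowerSeries.C (u j) * PowerSeries.X ^ (m + 2) := fun j =>
      dvd_add (h1 j) ((dvd_pow_self _ (by omega)).mul_left _)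
    refine ⟨_, h3, h1' ▸ funext fun j => by simp [fc, PowerSeries.coeff_X_pow], fun a => ?_⟩
    have h4 := taylor (s := PowerSeries.X ^ (m + 2)) h1 h3 (fun j => by simp) (φ a)
    have h5 : PowerSeries.X ^ (m + 2 + 1) ∣ aeval γ (φ a) +
        PowerSeries.C (dl φ u a) * PowerSeries.X ^ (m + 2) :=
      dvd_succ_iff.2 ⟨dvd_add (h2 a) (Dvd.intro_left _ rfl), by simp [hu]⟩
    rw [← pow_succ] at h4
    have h6 := dvd_add h4 h5
    simp only [add_sub_cancel_left, alg_ps, dl_apply, map_sum, map_mul, Finset.sum_mul, mul_assoc,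
      Algebra.algebraMap_self, RingHom.id_apply] at h6
    rwa [sub_sub, sub_add_cancel] at h6

theorem Bd.pos {G : MvPolynomial τ k} {R : ℕ} (h : Bd G R) {w : τ → ℕ} {N : ℕ} (hN : 0 < N)
    (hw : ∀ v ∈ G.support, N ≤ ∑ j, w j * v j) : R * N < ∑ j, w j := by
  let A := fun c => Fintype.card {j // c < w j} + Fintype.card {j // N ≤ w j + c}
  let ψ : ∀ c, {j // c < w j} ⊕ {j // N ≤ w j + c} → MvPolynomial τ k := fun c =>
    Sum.elim (fun j => X j.1) fun j => pderiv j.1 G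
  have h1 : ∀ c, LinearMap.ker (dl (ψ c)) ≤ Kr G := fun c v hv => funext fun j => by
    replace hv := fun a => congrFun hv a
    simp only [dl_apply, Pi.zero_apply, Sum.forall, ψ, Sum.elim_inl, Sum.elim_inr,
      Subtype.forall] at hv ⊢
    by_cases hj : N ≤ w j + c
    · exact hv.2 j hj
    refine Finset.sum_eq_zero fun i _ => ?_
    by_cases hi : c < w i
    · rw [show v i = 0 by simpa [lin_X] using hv.1 i hi, mul_zero]
    · rw [lin_eq, notMem_support_iff.1 fun h => ?_, zero_mul]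
      have := weight_pderiv hw j _ h
      simp [Finsupp.single_apply] at this
      omega
  have h2 := fun c => (dl (ψ c)).finrank_range_add_finrank_ker
  have h3 := fun c => (LinearMap.range (dl (ψ c))).finrank_le
  have h4 := fun c => Submodule.finrank_mono (h1 c)
  simp only [Module.finrank_fintype_fun_eq_card, Fintype.card_sum] at h2 h3
  have h5 := h.2.1
  have h6 : ∀ c, 2 * R ≤ A c := fun c => by
    have := h2 c; have := h3 c; have := h4 c
    simp only [A]
    omega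
  have h7 : 2 * R < A 0 := (h6 0).lt_of_ne fun h7 => by
    have := h2 0; have := h3 0; have := h4 0
    simp only [A] at h7
    refine h.2.2 (by omega) fun v hv M => ?_
    obtain ⟨γ, g1, g2, g3⟩ := jet_lift (φ := ψ 0) (by
      rintro (j | j)
      exacts [constantCoeff_X _ _, h.1.2 j]) (LinearMap.range_eq_top.1
        (Submodule.eq_top_of_finrank_eq (by
          simp only [Module.finrank_fintype_fun_eq_card, Fintype.card_sum]; omega)))
      (v := v) (by rwa [← Submodule.eq_of_le_of_finrank_le (h1 0) (by omega)] at hv) M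
    replace g3 := fun a => (pow_dvd_pow _ (Nat.le_add_right M 2)).trans (g3 a)
    simp only [Sum.forall, ψ, Sum.elim_inl, Sum.elim_inr, Subtype.forall, aeval_X] at g3
    refine ⟨γ, ⟨g1, dvd_of_weight g3.1 fun v hv => hN.trans_le (hw v hv), fun j => ?_⟩, g2⟩
    by_cases hj : N ≤ w j + 0
    · exact g3.2 j hj
    · exact dvd_of_weight g3.1 fun v hv => by have := weight_pderiv hw j v hv; omega
  have h8 := Finset.sum_lt_sum (s := Finset.range N) (fun c _ => h6 c)
    ⟨0, Finset.mem_range.2 hN, h7⟩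
  have h9 : ∑ c ∈ Finset.range N, A c ≤ ∑ j, 2 * w j := by
    simp only [A, Fintype.card_subtype, Finset.card_filter, ← Finset.sum_add_distrib]
    rw [Finset.sum_comm]
    refine Finset.sum_le_sum fun j _ => ?_
    rw [Finset.sum_add_distrib, ← Finset.card_filter, ← Finset.card_filter, two_mul]
    refine add_le_add ((Finset.card_le_card fun c hc => ?_).trans_eq (Finset.card_range _))
      ((Finset.card_le_card (t := Finset.Ico (N - w j) N) fun c hc => ?_).trans ?_)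
    · simpa using (Finset.mem_filter.1 hc).2
    · simp only [Finset.mem_filter, Finset.mem_range, Finset.mem_Ico] at hc ⊢
      omega
    · rw [Nat.card_Ico]
      omega
  rw [Finset.sum_const, Finset.card_range, smul_eq_mul] at h8
  rw [← Finset.mul_sum] at h9
  nlinarith

end

end Pool.Agent.P.MP_b91a16_ag.SC
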